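import Mathlib

namespace Pool.Agent.Results.MP_eea90e_nt.OmegaDivergence

open Finset

/-- The odd iterates of `x`: `x₀ = x` and `x_{n+1} = (3 x_n + 1) / 2 ^ e`, where `e` is the
exponent of `2` in `3 x_n + 1`. -/
def oddTraj (x : ℕ) : ℕ → ℕ
  | 0 => x
  | n + 1 => (3 * oddTraj x n + 1) / 2 ^ padicValNat 2 (3 * oddTraj x n + 1)

/-- The E-sequence of `x`: for `n ≥ 1`, `a_n` is the exponent of `2` in `3 x_{n-1} + 1`. -/
def eSeqOf (x n : ℕ) : ℕ := padicValNat 2 (3 * oddTraj x (n - 1) + 1)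

/-- `a` (read at the indices `n ≥ 1`) is an E-sequence: a sequence of positive integers. -/
def IsESeq (a : ℕ → ℕ) : Prop := ∀ n, 1 ≤ n → 1 ≤ a n

/-- `a` coincides with the E-sequence of the odd positive integer `x`. -/
def OmegaConvergesTo (a : ℕ → ℕ) (x : ℕ) : Prop :=
  0 < x ∧ Odd x ∧ ∀ n, 1 ≤ n → a n = eSeqOf x n

/-- `a` is the E-sequence of no odd positive integer. -/
def OmegaDivergent (a : ℕ → ℕ) : Prop := ∀ x : ℕ, ¬ OmegaConvergesTo a x

/-- `a` is periodic (eventually periodic sequences included). -/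
def IsPeriodic (a : ℕ → ℕ) : Prop :=
  ∃ l r : ℕ, 1 ≤ r ∧ ∀ n, l < n → a (n + r) = a n

/-- `b_n = a_1 + ... + a_n`. -/
def bSum (a : ℕ → ℕ) (n : ℕ) : ℕ := ∑ i ∈ Finset.Icc 1 n, a i

/-! ### The accelerated map and parity vectors -/

/-- the map `x ↦ x/2` or `(3x+1)/2` -/
def T (x : ℕ) : ℕ := if x % 2 = 0 then x / 2 else (3 * x + 1) / 2

lemma T_pos {x : ℕ} (hx : 0 < x) : 0 < T x := by
  unfold T; split_ifs <;> omega

lemma iter_pos {x : ℕ} (hx : 0 < x) (n : ℕ) : 0 < T^[n] x := by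
  induction n with
  | zero => simpa using hx
  | succ n ih => rw [Function.iterate_succ_apply']; exact T_pos ih

lemma modEq_of_parity (k : ℕ) : ∀ x x' : ℕ,
    (∀ i < k, (T^[i] x) % 2 = (T^[i] x') % 2) → x ≡ x' [MOD 2 ^ k] := by
  induction k with
  | zero => intro x x' _; simp [Nat.modEq_one]
  | succ k ih =>
    intro x x' h
    have h0 := h 0 (Nat.succ_pos k)
    simp only [Function.iterate_zero, id_eq] at h0
    have h1 : T x ≡ T x' [MOD 2 ^ k] := by
      apply ih
      intro i hi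
      have := h (i + 1) (by omega)
      simpa [Function.iterate_succ_apply] using this
    have h2 : 2 * T x ≡ 2 * T x' [MOD 2 * 2 ^ k] := Nat.ModEq.mul_left' 2 h1
    rw [pow_succ, mul_comm (2 ^ k) 2]
    rcases Nat.mod_two_eq_zero_or_one x with hx | hx
    · have hx' : x' % 2 = 0 := by omega
      have e1 : 2 * T x = x := by unfold T; rw [if_pos hx]; omega
      have e2 : 2 * T x' = x' := by unfold T; rw [if_pos hx']; omega
      rwa [e1, e2] at h2
    · have hx' : x' % 2 = 1 := by omega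
      have e1 : 2 * T x = 3 * x + 1 := by unfold T; rw [if_neg (by omega)]; omega
      have e2 : 2 * T x' = 3 * x' + 1 := by unfold T; rw [if_neg (by omega)]; omega
      rw [e1, e2] at h2
      have h3 : 3 * x ≡ 3 * x' [MOD 2 * 2 ^ k] := Nat.ModEq.add_right_cancel' 1 h2
      have hc : Nat.gcd (2 * 2 ^ k) 3 = 1 := by
        have : Nat.Coprime (2 ^ (k + 1)) 3 := Nat.Coprime.pow_left _ (by norm_num)
        rw [pow_succ, mul_comm] at this
        exact this
      exact Nat.ModEq.cancel_left_of_coprime hc h3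

/-- positions of the odd iterates among the first `k` -/
def pset (k x : ℕ) : Finset ℕ := (range k).filter (fun i => (T^[i] x) % 2 = 1)

lemma pset_injOn (k : ℕ) : Set.InjOn (pset k) (range (2 ^ k) : Finset ℕ) := by
  intro x hx x' hx' h
  have hx : x < 2 ^ k := by simpa using hx
  have hx' : x' < 2 ^ k := by simpa using hx'
  have h1 : x ≡ x' [MOD 2 ^ k] := by
    apply modEq_of_parity
    intro i hi
    have h2 : i ∈ pset k x ↔ i ∈ pset k x' := by rw [h]
    simp only [pset, mem_filter, mem_range, hi, true_and] at h2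
    rcases Nat.mod_two_eq_zero_or_one (T^[i] x) with h3 | h3 <;>
    rcases Nat.mod_two_eq_zero_or_one (T^[i] x') with h4 | h4 <;> simp_all
  have h2 := h1
  unfold Nat.ModEq at h2
  rwa [Nat.mod_eq_of_lt hx, Nat.mod_eq_of_lt hx'] at h2

lemma sum_pow_le (k : ℕ) (r : ℝ) (hr : 0 ≤ r) :
    ∑ x ∈ range (2 ^ k), r ^ (pset k x).card ≤ (r + 1) ^ k := by
  have h1 : ∑ x ∈ range (2 ^ k), r ^ (pset k x).card
      = ∑ S ∈ (range (2 ^ k)).image (pset k), r ^ S.card := by
    rw [Finset.sum_image (pset_injOn k)]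
  rw [h1]
  have h2 : ∑ S ∈ (range k).powerset, r ^ S.card = (r + 1) ^ k := by
    have := Finset.sum_pow_mul_eq_add_pow r 1 (range k)
    simpa using this
  rw [← h2]
  apply Finset.sum_le_sum_of_subset_of_nonneg
  · intro S hS
    simp only [mem_image, mem_range] at hS
    obtain ⟨x, _, rfl⟩ := hS
    simp [pset]
  · intro S _ _
    positivity

lemma pset_card_succ (k x : ℕ) :
    (pset (k + 1) x).card = (pset k x).card + (if (T^[k] x) % 2 = 1 then 1 else 0) := by
  unfold pset
  rw [Finset.range_add_one, Finset.filter_insert]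
  split_ifs with h
  · rw [Finset.card_insert_of_notMem]
    simp
  · simp

lemma growth (x : ℕ) (L : ℝ) (hL : 0 < L) (k : ℕ) (h : ∀ i < k, L ≤ (T^[i] x : ℕ)) :
    (2 : ℝ) ^ k * (T^[k] x : ℕ) ≤ 3 ^ (pset k x).card * x * (1 + 1 / (3 * L)) ^ k := by
  induction k with
  | zero => simp [pset]
  | succ k ih =>
    have ih' := ih (fun i hi => h i (by omega))
    have hk := h k (by omega)
    set y := T^[k] x with hy
    have hc : (1 : ℝ) ≤ 1 + 1 / (3 * L) := by
      have : 0 < 1 / (3 * L) := by positivity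
      linarith
    rw [Function.iterate_succ_apply', ← hy, pset_card_succ, ← hy]
    rcases Nat.mod_two_eq_zero_or_one y with h0 | h1
    · have e : (2 : ℝ) * (T y : ℕ) = y := by
        have : 2 * T y = y := by unfold T; rw [if_pos h0]; omega
        exact_mod_cast this
      rw [if_neg (by omega), add_zero]
      calc (2 : ℝ) ^ (k + 1) * (T y : ℕ) = 2 ^ k * (2 * (T y : ℕ)) := by ring
        _ = 2 ^ k * y := by rw [e]
        _ ≤ 3 ^ (pset k x).card * x * (1 + 1 / (3 * L)) ^ k := ih'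
        _ ≤ 3 ^ (pset k x).card * x * (1 + 1 / (3 * L)) ^ (k + 1) := by
            apply mul_le_mul_of_nonneg_left _ (by positivity)
            exact pow_le_pow_right₀ hc (Nat.le_succ k)
    · have e : (2 : ℝ) * (T y : ℕ) = 3 * y + 1 := by
        have : 2 * T y = 3 * y + 1 := by unfold T; rw [if_neg (by omega)]; omega
        exact_mod_cast this
      rw [if_pos h1]
      have e2 : (3 * (y : ℝ) + 1) ≤ 3 * y * (1 + 1 / (3 * L)) := by
        have : (1 : ℝ) ≤ y / L := by rw [le_div_iff₀ hL]; linarith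
        have e3 : 3 * (y : ℝ) * (1 + 1 / (3 * L)) = 3 * y + y / L := by
          field_simp
        rw [e3]; linarith
      calc (2 : ℝ) ^ (k + 1) * (T y : ℕ) = 2 ^ k * (2 * (T y : ℕ)) := by ring
        _ = 2 ^ k * (3 * y + 1) := by rw [e]
        _ ≤ 2 ^ k * (3 * y * (1 + 1 / (3 * L))) := by
            apply mul_le_mul_of_nonneg_left e2 (by positivity)
        _ = (2 ^ k * y) * (3 * (1 + 1 / (3 * L))) := by ring
        _ ≤ (3 ^ (pset k x).card * x * (1 + 1 / (3 * L)) ^ k) * (3 * (1 + 1 / (3 * L))) := by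
            apply mul_le_mul_of_nonneg_right ih' (by positivity)
        _ = 3 ^ ((pset k x).card + 1) * x * (1 + 1 / (3 * L)) ^ (k + 1) := by ring

/-- `10 j` copies of the error factor stay below `2`. -/
lemma err_le (j : ℕ) : (1 + 1 / (3 * (2 : ℝ) ^ (9 * j))) ^ (10 * j) ≤ 2 := by
  rcases Nat.eq_zero_or_pos j with rfl | hj
  · simp
  set ε : ℝ := 1 / (3 * (2 : ℝ) ^ (9 * j)) with hε
  have hε0 : 0 < ε := by positivity
  have h20 : (20 : ℝ) * j ≤ 3 * 2 ^ (9 * j) := by
    have h : 20 * j ≤ 3 * 2 ^ (9 * j) := by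
      have h1 : 9 * j < 2 ^ (9 * j) := Nat.lt_two_pow_self
      omega
    exact_mod_cast h
  have hs : (10 * j : ℝ) * ε ≤ 1 / 2 := by
    rw [hε, mul_one_div, div_le_iff₀ (by positivity)]
    linarith
  have hε1 : ε ≤ 1 / 2 := by
    have : (1 : ℝ) ≤ 10 * j := by
      have : (1 : ℝ) ≤ j := by exact_mod_cast hj
      linarith
    nlinarith
  have hb : (1 / 2 : ℝ) ≤ (1 - ε) ^ (10 * j) := by
    have := one_add_mul_le_pow (a := -ε) (by linarith) (10 * j)
    push_cast at this
    have e : (1 + -ε) = 1 - ε := by ring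
    rw [e] at this
    linarith
  have hp : (1 + ε) ^ (10 * j) * (1 - ε) ^ (10 * j) ≤ 1 := by
    rw [← mul_pow]
    apply pow_le_one₀
    · nlinarith
    · nlinarith
  have hpos : 0 < (1 + ε) ^ (10 * j) := by positivity
  nlinarith

/-- numbers below `2 ^ (10 j)` whose first `10 j` iterates stay above `2 ^ (9 j)` -/
def exc (j : ℕ) : Finset ℕ :=
  (range (2 ^ (10 * j))).filter (fun x => ∀ i ≤ 10 * j, 2 ^ (9 * j) ≤ T^[i] x)

lemma exc_card (j : ℕ) : ((exc j).card : ℝ) ≤ 2 * ((22 / 9 : ℝ) ^ 10 / 8) ^ j := by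
  have key : ∀ x ∈ exc j, (1 : ℝ) ≤ 2 * (13 / 9 : ℝ) ^ (pset (10 * j) x).card / 8 ^ j := by
    intro x hx
    simp only [exc, mem_filter, mem_range] at hx
    obtain ⟨hx1, hx2⟩ := hx
    have hg := growth x ((2 : ℝ) ^ (9 * j)) (by positivity) (10 * j) (by
      intro i hi
      have := hx2 i hi.le
      exact_mod_cast this)
    have he := err_le j
    have hlast : ((2 : ℝ) ^ (9 * j)) ≤ (T^[10 * j] x : ℕ) := by
      have := hx2 (10 * j) le_rfl
      exact_mod_cast this
    have hx3 : (x : ℝ) ≤ 2 ^ (10 * j) := by exact_mod_cast hx1.le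
    set m := (pset (10 * j) x).card with hm
    have h1 : (2 : ℝ) ^ (10 * j) * 2 ^ (9 * j) ≤ 3 ^ m * 2 ^ (10 * j) * 2 := by
      calc (2 : ℝ) ^ (10 * j) * 2 ^ (9 * j) ≤ 2 ^ (10 * j) * (T^[10 * j] x : ℕ) := by
            apply mul_le_mul_of_nonneg_left hlast (by positivity)
        _ ≤ 3 ^ m * x * (1 + 1 / (3 * 2 ^ (9 * j))) ^ (10 * j) := hg
        _ ≤ 3 ^ m * 2 ^ (10 * j) * 2 := by
            apply mul_le_mul _ he (by positivity) (by positivity)
            apply mul_le_mul_of_nonneg_left hx3 (by positivity)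
    have h2 : (2 : ℝ) ^ (9 * j) ≤ 2 * 3 ^ m := by
      have hp : (0 : ℝ) < 2 ^ (10 * j) := by positivity
      have : (2 : ℝ) ^ (10 * j) * 2 ^ (9 * j) ≤ 2 ^ (10 * j) * (2 * 3 ^ m) := by linarith
      exact le_of_mul_le_mul_left this hp
    have h3 : ((8 : ℝ) ^ j) ^ 3 ≤ (2 * (13 / 9 : ℝ) ^ m) ^ 3 := by
      have e1 : ((8 : ℝ) ^ j) ^ 3 = 2 ^ (9 * j) := by
        rw [show (8 : ℝ) = 2 ^ 3 by norm_num, ← pow_mul, ← pow_mul]
        congr 1; ring
      have e2 : (2 * (13 / 9 : ℝ) ^ m) ^ 3 = 8 * ((13 / 9 : ℝ) ^ 3) ^ m := by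
        rw [mul_pow, ← pow_mul, ← pow_mul, mul_comm m 3]; norm_num
      rw [e1, e2]
      calc (2 : ℝ) ^ (9 * j) ≤ 2 * 3 ^ m := h2
        _ ≤ 8 * 3 ^ m := by
            have : (0 : ℝ) < 3 ^ m := by positivity
            linarith
        _ ≤ 8 * ((13 / 9 : ℝ) ^ 3) ^ m := by
            apply mul_le_mul_of_nonneg_left _ (by norm_num)
            exact pow_le_pow_left₀ (by norm_num) (by norm_num) m
    have h4 : (8 : ℝ) ^ j ≤ 2 * (13 / 9 : ℝ) ^ m :=
      le_of_pow_le_pow_left₀ (by norm_num) (by positivity) h3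
    rw [le_div_iff₀ (by positivity)]
    linarith
  calc ((exc j).card : ℝ) = ∑ x ∈ exc j, (1 : ℝ) := by simp
    _ ≤ ∑ x ∈ exc j, 2 * (13 / 9 : ℝ) ^ (pset (10 * j) x).card / 8 ^ j :=
        Finset.sum_le_sum key
    _ ≤ ∑ x ∈ range (2 ^ (10 * j)), 2 * (13 / 9 : ℝ) ^ (pset (10 * j) x).card / 8 ^ j := by
        apply Finset.sum_le_sum_of_subset_of_nonneg
        · exact Finset.filter_subset _ _
        · intro _ _ _; positivity
    _ = 2 / 8 ^ j * ∑ x ∈ range (2 ^ (10 * j)), (13 / 9 : ℝ) ^ (pset (10 * j) x).card := by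
        rw [Finset.mul_sum]
        apply Finset.sum_congr rfl
        intro x _; ring
    _ ≤ 2 / 8 ^ j * (13 / 9 + 1) ^ (10 * j) := by
        apply mul_le_mul_of_nonneg_left _ (by positivity)
        exact sum_pow_le _ _ (by norm_num)
    _ = 2 * ((22 / 9 : ℝ) ^ 10 / 8) ^ j := by
        rw [div_pow, ← pow_mul]; norm_num; ring

/-! ### Counting along an injective orbit -/

lemma orbit_count (x : ℕ) (hinj : Function.Injective (fun n => T^[n] x)) (s : Finset ℕ) (j : ℕ) :
    ((s.filter (fun n => T^[n] x < 2 ^ (10 * j))).card : ℝ)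
      ≤ (10 * j + 1) * 2 ^ (9 * j) + 2 * ((22 / 9 : ℝ) ^ 10 / 8) ^ j := by
  classical
  set A := s.filter (fun n => T^[n] x < 2 ^ (10 * j)) with hA
  set A1 := A.filter (fun n => ∃ i ≤ 10 * j, T^[n + i] x < 2 ^ (9 * j)) with hA1
  set A2 := A.filter (fun n => ¬ ∃ i ≤ 10 * j, T^[n + i] x < 2 ^ (9 * j)) with hA2
  have hsplit : A.card = A1.card + A2.card := by
    rw [hA1, hA2, Finset.card_filter_add_card_filter_not]
  have h2 : A2.card ≤ (exc j).card := by
    apply Finset.card_le_card_of_injOn (fun n => T^[n] x)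
    · intro n hn
      simp only [hA2, hA, coe_filter, mem_filter, Set.mem_ofPred_eq] at hn
      obtain ⟨⟨_, hn1⟩, hn2⟩ := hn
      push Not at hn2
      simp only [exc, coe_filter, mem_range, Set.mem_ofPred_eq]
      refine ⟨hn1, fun i hi => ?_⟩
      rw [← Function.iterate_add_apply, add_comm]
      exact hn2 i hi
    · exact hinj.injOn
  have h1 : A1.card ≤ (range (10 * j + 1) ×ˢ range (2 ^ (9 * j))).card := by
    have hch : ∀ n : ℕ, ∃ i : ℕ, n ∈ A1 → i ≤ 10 * j ∧ T^[n + i] x < 2 ^ (9 * j) := by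
      intro n
      by_cases hn : n ∈ A1
      · have hn' := hn
        simp only [hA1, mem_filter] at hn'
        obtain ⟨i, hi, hi'⟩ := hn'.2
        exact ⟨i, fun _ => ⟨hi, hi'⟩⟩
      · exact ⟨0, fun h => absurd h hn⟩
    choose f hf using hch
    apply Finset.card_le_card_of_injOn (fun n => (f n, T^[n + f n] x))
    · intro n hn
      have := hf n hn
      simp only [coe_product, coe_range, Set.mem_prod, Set.mem_Iio]
      omega
    · intro n hn n' hn' h
      simp only [Prod.mk.injEq] at h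
      have := hinj h.2
      omega
  rw [Finset.card_product, Finset.card_range, Finset.card_range] at h1
  have h1' : (A1.card : ℝ) ≤ (10 * j + 1) * 2 ^ (9 * j) := by exact_mod_cast h1
  have h2' : (A2.card : ℝ) ≤ 2 * ((22 / 9 : ℝ) ^ 10 / 8) ^ j :=
    le_trans (by exact_mod_cast h2) (exc_card j)
  rw [hsplit]; push_cast
  linarith

/-- the summable majorant -/
noncomputable def maj (j : ℕ) : ℝ :=
  ((10 * (j + 1 : ℕ) + 1) * 2 ^ (9 * (j + 1)) + 2 * ((22 / 9 : ℝ) ^ 10 / 8) ^ (j + 1)) /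
    2 ^ (10 * j)

lemma maj_summable : Summable maj := by
  have e : ∀ j : ℕ, maj j = 5120 * ((j : ℝ) ^ 1 * (1 / 2 : ℝ) ^ j) + 5632 * (1 / 2 : ℝ) ^ j
      + (2 * ((22 / 9 : ℝ) ^ 10 / 8)) * ((22 / 9 : ℝ) ^ 10 / 8192) ^ j := by
    intro j
    unfold maj
    have h1 : (2 : ℝ) ^ (9 * (j + 1)) = 512 * (2 ^ (10 * j) * (1 / 2) ^ j) := by
      have : (2 : ℝ) ^ (10 * j) * (1 / 2) ^ j = 2 ^ (9 * j) := by
        rw [pow_mul, ← mul_pow, pow_mul]; norm_num
      rw [this, mul_add, pow_add]; norm_num; ring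
    have h2 : ((22 / 9 : ℝ) ^ 10 / 8) ^ (j + 1) =
        ((22 / 9 : ℝ) ^ 10 / 8) * (2 ^ (10 * j) * ((22 / 9 : ℝ) ^ 10 / 8192) ^ j) := by
      have : (2 : ℝ) ^ (10 * j) * ((22 / 9 : ℝ) ^ 10 / 8192) ^ j = ((22 / 9 : ℝ) ^ 10 / 8) ^ j := by
        rw [pow_mul, ← mul_pow]; norm_num
      rw [this, pow_succ]; ring
    rw [h1, h2, div_eq_iff (by positivity)]
    push_cast
    ring
  have hs : Summable (fun j : ℕ => 5120 * ((j : ℝ) ^ 1 * (1 / 2 : ℝ) ^ j)
      + 5632 * (1 / 2 : ℝ) ^ j
      + (2 * ((22 / 9 : ℝ) ^ 10 / 8)) * ((22 / 9 : ℝ) ^ 10 / 8192) ^ j) := by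
    apply Summable.add
    · apply Summable.add
      · apply Summable.mul_left
        apply summable_pow_mul_geometric_of_norm_lt_one
        rw [Real.norm_eq_abs, abs_of_pos (by norm_num)]; norm_num
      · apply Summable.mul_left
        exact summable_geometric_of_lt_one (by norm_num) (by norm_num)
    · apply Summable.mul_left
      exact summable_geometric_of_lt_one (by positivity) (by norm_num)
  exact hs.congr (fun j => (e j).symm)

lemma maj_nonneg (j : ℕ) : 0 ≤ maj j := by unfold maj; positivity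

lemma sum_inv_le (x : ℕ) (hx : 0 < x) (hinj : Function.Injective (fun n => T^[n] x))
    (s : Finset ℕ) : ∑ n ∈ s, 1 / ((T^[n] x : ℕ) : ℝ) ≤ ∑' j, maj j := by
  classical
  set J := ∑ n ∈ s, T^[n] x with hJ
  have hJlt : ∀ n ∈ s, T^[n] x ≤ J := by
    intro n hn
    exact Finset.single_le_sum (f := fun n => T^[n] x) (fun i _ => Nat.zero_le _) hn
  have hpt : ∀ n ∈ s, 1 / ((T^[n] x : ℕ) : ℝ) ≤
      ∑ j ∈ range (J + 1), (if T^[n] x < 2 ^ (10 * (j + 1)) then (1 : ℝ) / 2 ^ (10 * j) else 0) := by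
    intro n hn
    have hy : 0 < T^[n] x := iter_pos hx n
    set y := T^[n] x with hydef
    set j0 := Nat.log (2 ^ 10) y with hj0
    have hlow : (2 ^ 10) ^ j0 ≤ y := Nat.pow_log_le_self _ hy.ne'
    have hup : y < (2 ^ 10) ^ (j0 + 1) := Nat.lt_pow_succ_log_self (by norm_num) y
    rw [← pow_mul] at hlow hup
    have hj0J : j0 ∈ range (J + 1) := by
      rw [mem_range]
      have h1 : y ≤ J := hJlt n hn
      have h2 : j0 ≤ y := Nat.log_le_self _ _
      omega
    have hnn : ∀ j ∈ range (J + 1),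
        (0 : ℝ) ≤ (if y < 2 ^ (10 * (j + 1)) then (1 : ℝ) / 2 ^ (10 * j) else 0) := by
      intro j _; split_ifs <;> positivity
    refine le_trans ?_ (Finset.single_le_sum hnn hj0J)
    rw [if_pos hup]
    apply one_div_le_one_div_of_le (by positivity)
    exact_mod_cast hlow
  calc ∑ n ∈ s, 1 / ((T^[n] x : ℕ) : ℝ)
      ≤ ∑ n ∈ s, ∑ j ∈ range (J + 1),
        (if T^[n] x < 2 ^ (10 * (j + 1)) then (1 : ℝ) / 2 ^ (10 * j) else 0) :=
        Finset.sum_le_sum hpt
    _ = ∑ j ∈ range (J + 1), ∑ n ∈ s,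
        (if T^[n] x < 2 ^ (10 * (j + 1)) then (1 : ℝ) / 2 ^ (10 * j) else 0) :=
        Finset.sum_comm
    _ = ∑ j ∈ range (J + 1),
        ((s.filter (fun n => T^[n] x < 2 ^ (10 * (j + 1)))).card : ℝ) / 2 ^ (10 * j) := by
        apply Finset.sum_congr rfl
        intro j _
        rw [← Finset.sum_filter, Finset.sum_const, nsmul_eq_mul]; ring
    _ ≤ ∑ j ∈ range (J + 1), maj j := by
        apply Finset.sum_le_sum
        intro j _
        unfold maj
        apply div_le_div_of_nonneg_right _ (by positivity)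
        exact orbit_count x hinj s (j + 1)
    _ ≤ ∑' j, maj j := maj_summable.sum_le_tsum _ (fun j _ => maj_nonneg j)

/-! ### From the accelerated map to the odd iterates -/

lemma iter_halve (v : ℕ) : ∀ z : ℕ, 2 ^ v ∣ z → T^[v] z = z / 2 ^ v := by
  induction v with
  | zero => intro z _; simp
  | succ v ih =>
    intro z hz
    obtain ⟨c, rfl⟩ := hz
    have h0 : T (2 ^ (v + 1) * c) = 2 ^ v * c := by
      have e : 2 ^ (v + 1) * c = 2 * (2 ^ v * c) := by ring
      unfold T
      rw [e, if_pos (by omega)]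
      omega
    rw [Function.iterate_succ_apply, h0, ih _ (Dvd.intro c rfl)]
    rw [Nat.mul_div_cancel_left _ (by positivity), Nat.mul_div_cancel_left _ (by positivity)]

lemma odd_step (z : ℕ) (hz : z % 2 = 1) :
    T^[padicValNat 2 (3 * z + 1)] z = (3 * z + 1) / 2 ^ padicValNat 2 (3 * z + 1) := by
  set v := padicValNat 2 (3 * z + 1) with hv
  have hdvd : 2 ^ v ∣ 3 * z + 1 := pow_padicValNat_dvd
  have hv1 : 1 ≤ v := one_le_padicValNat_of_dvd (by omega) (by omega)
  obtain ⟨w, hw⟩ : ∃ w, v = w + 1 := ⟨v - 1, by omega⟩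
  rw [hw] at hdvd ⊢
  obtain ⟨c, hc⟩ := hdvd
  have h0 : T z = 2 ^ w * c := by
    have e : 2 ^ (w + 1) * c = 2 * (2 ^ w * c) := by ring
    unfold T
    rw [if_neg (by omega)]
    omega
  rw [Function.iterate_succ_apply, h0, iter_halve w _ (Dvd.intro c rfl), hc,
    Nat.mul_div_cancel_left _ (by positivity), Nat.mul_div_cancel_left _ (by positivity)]

lemma oddTraj_succ_mul (x n : ℕ) :
    2 ^ padicValNat 2 (3 * oddTraj x n + 1) * oddTraj x (n + 1) = 3 * oddTraj x n + 1 := by
  have : oddTraj x (n + 1)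
    = (3 * oddTraj x n + 1) / 2 ^ padicValNat 2 (3 * oddTraj x n + 1) := rfl
  rw [this]
  exact Nat.mul_div_cancel' pow_padicValNat_dvd

lemma oddTraj_odd (x : ℕ) (hx : x % 2 = 1) (n : ℕ) : oddTraj x n % 2 = 1 := by
  cases n with
  | zero => simpa [oddTraj] using hx
  | succ n =>
    by_contra h
    have h0 : oddTraj x (n + 1) % 2 = 0 := by omega
    obtain ⟨c, hc⟩ : 2 ∣ oddTraj x (n + 1) := Nat.dvd_of_mod_eq_zero h0
    have h1 := oddTraj_succ_mul x n
    have h2 : 2 ^ (padicValNat 2 (3 * oddTraj x n + 1) + 1) ∣ 3 * oddTraj x n + 1 := by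
      refine ⟨c, ?_⟩
      calc 3 * oddTraj x n + 1
          = 2 ^ padicValNat 2 (3 * oddTraj x n + 1) * oddTraj x (n + 1) := h1.symm
        _ = 2 ^ padicValNat 2 (3 * oddTraj x n + 1) * (2 * c) := by rw [hc]
        _ = 2 ^ (padicValNat 2 (3 * oddTraj x n + 1) + 1) * c := by ring
    have h3 := (padicValNat_dvd_iff_le (p := 2) (by omega)).mp h2
    omega

lemma oddTraj_eq_iter (x : ℕ) (hx : x % 2 = 1) (n : ℕ) : ∃ t, oddTraj x n = T^[t] x := by
  induction n with
  | zero => exact ⟨0, rfl⟩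
  | succ n ih =>
    obtain ⟨t, ht⟩ := ih
    refine ⟨padicValNat 2 (3 * oddTraj x n + 1) + t, ?_⟩
    rw [Function.iterate_add_apply, ← ht, odd_step _ (oddTraj_odd x hx n)]
    rfl

lemma oddTraj_shift (x i j : ℕ) (h : oddTraj x i = oddTraj x j) (m : ℕ) :
    oddTraj x (i + m) = oddTraj x (j + m) := by
  induction m with
  | zero => simpa using h
  | succ m ih =>
    rw [← add_assoc, ← add_assoc]
    simp only [oddTraj, ih]

lemma orbit_injective (x : ℕ) (hx : x % 2 = 1) (hinj : Function.Injective (oddTraj x)) :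
    Function.Injective (fun n => T^[n] x) := by
  have main : ∀ s t : ℕ, s < t → T^[s] x ≠ T^[t] x := by
    intro s t hst heq
    have hall : ∀ n, ∃ m < t, T^[n] x = T^[m] x := by
      intro n
      induction n using Nat.strong_induction_on with
      | _ n ih =>
        by_cases hn : n < t
        · exact ⟨n, hn, rfl⟩
        · have e : T^[n] x = T^[n - t + s] x := by
            have e1 : n = (n - t) + t := by omega
            conv_lhs => rw [e1]
            rw [Function.iterate_add_apply, ← heq, ← Function.iterate_add_apply]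
          rw [e]
          exact ih (n - t + s) (by omega)
    have hfin : (Set.range (oddTraj x)).Finite := by
      apply Set.Finite.subset ((Finset.range t).image (fun m => T^[m] x)).finite_toSet
      rintro y ⟨n, rfl⟩
      obtain ⟨u, hu⟩ := oddTraj_eq_iter x hx n
      obtain ⟨m, hm, hm'⟩ := hall u
      simp only [coe_image, coe_range, Set.mem_image, Set.mem_Iio]
      exact ⟨m, hm, by rw [hu, hm']⟩
    exact Set.infinite_range_of_injective hinj hfin
  intro s t h
  rcases lt_trichotomy s t with hlt | heq | hgt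
  · exact absurd h (main s t hlt)
  · exact heq
  · exact absurd h.symm (main t s hgt)

/-- Sum of the reciprocals of the odd iterates is bounded. -/
lemma oddTraj_sum_inv_le (x : ℕ) (hx : x % 2 = 1) (hinj : Function.Injective (oddTraj x)) :
    ∃ C : ℝ, ∀ n, ∑ i ∈ range n, 1 / (oddTraj x i : ℝ) ≤ C := by
  classical
  refine ⟨∑' j, maj j, fun n => ?_⟩
  choose t ht using oddTraj_eq_iter x hx
  have htinj : Function.Injective t := by
    intro a b hab
    apply hinj
    rw [ht a, ht b, hab]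
  have := sum_inv_le x (by omega) (orbit_injective x hx hinj) ((range n).image t)
  rw [Finset.sum_image htinj.injOn] at this
  refine le_trans (le_of_eq ?_) this
  apply Finset.sum_congr rfl
  intro i _
  rw [← ht i]

lemma prod_bound (x : ℕ) (hx : x % 2 = 1) (a : ℕ → ℕ)
    (ha : ∀ n, 1 ≤ n → a n = eSeqOf x n) (n : ℕ) :
    (2 : ℝ) ^ bSum a n * oddTraj x n ≤
      3 ^ n * x * Real.exp ((1 / 3) * ∑ i ∈ range n, 1 / (oddTraj x i : ℝ)) := by
  induction n with
  | zero => simp [bSum, oddTraj]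
  | succ n ih =>
    have hb : bSum a (n + 1) = bSum a n + padicValNat 2 (3 * oddTraj x n + 1) := by
      unfold bSum
      rw [Finset.sum_Icc_succ_top (by omega), ha (n + 1) (by omega)]
      rfl
    have hm : (2 : ℝ) ^ padicValNat 2 (3 * oddTraj x n + 1) * oddTraj x (n + 1)
        = 3 * oddTraj x n + 1 := by exact_mod_cast oddTraj_succ_mul x n
    have hpos : (0 : ℝ) < oddTraj x n := by
      have := oddTraj_odd x hx n
      have : 0 < oddTraj x n := by omega
      exact_mod_cast this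
    have hexp : 3 * (oddTraj x n : ℝ) + 1 ≤
        3 * oddTraj x n * Real.exp ((1 / 3) * (1 / (oddTraj x n : ℝ))) := by
      have h1 := Real.add_one_le_exp ((1 / 3) * (1 / (oddTraj x n : ℝ)))
      have h2 : 3 * (oddTraj x n : ℝ) + 1 =
          3 * oddTraj x n * ((1 / 3) * (1 / (oddTraj x n : ℝ)) + 1) := by
        field_simp; ring
      rw [h2]
      apply mul_le_mul_of_nonneg_left h1 (by positivity)
    rw [hb, Finset.sum_range_succ, mul_add, Real.exp_add, pow_add]
    calc (2 : ℝ) ^ bSum a n * 2 ^ padicValNat 2 (3 * oddTraj x n + 1) * oddTraj x (n + 1)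
        = 2 ^ bSum a n * (3 * oddTraj x n + 1) := by rw [mul_assoc, hm]
      _ ≤ 2 ^ bSum a n * (3 * oddTraj x n * Real.exp ((1 / 3) * (1 / (oddTraj x n : ℝ)))) := by
          apply mul_le_mul_of_nonneg_left hexp (by positivity)
      _ = (2 ^ bSum a n * oddTraj x n) *
            (3 * Real.exp ((1 / 3) * (1 / (oddTraj x n : ℝ)))) := by ring
      _ ≤ (3 ^ n * x * Real.exp ((1 / 3) * ∑ i ∈ range n, 1 / (oddTraj x i : ℝ))) *
            (3 * Real.exp ((1 / 3) * (1 / (oddTraj x n : ℝ)))) := by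
          apply mul_le_mul_of_nonneg_right ih (by positivity)
      _ = _ := by ring

/-- **Answer to Q1.** Every non-periodic E-sequence with `b_n > n log_2 3` for infinitely many `n`
is `Ω`-divergent. -/
theorem result (a : ℕ → ℕ) (_ha : IsESeq a) (hnp : ¬ IsPeriodic a)
    (hb : ∀ N : ℕ, ∃ n, N ≤ n ∧ (n : ℝ) * Real.logb 2 3 < (bSum a n : ℝ)) :
    OmegaDivergent a := by
  rintro x ⟨hx0, hxodd, hax⟩
  have hx : x % 2 = 1 := Nat.odd_iff.mp hxodd
  have hinj : Function.Injective (oddTraj x) := by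
    have main : ∀ i j : ℕ, i < j → oddTraj x i ≠ oddTraj x j := by
      intro i j hij heq
      apply hnp
      refine ⟨i, j - i, by omega, fun n hn => ?_⟩
      rw [hax _ (by omega), hax n (by omega)]
      unfold eSeqOf
      have h1 := oddTraj_shift x i j heq (n - 1 - i)
      have e1 : i + (n - 1 - i) = n - 1 := by omega
      have e2 : j + (n - 1 - i) = n + (j - i) - 1 := by omega
      rw [e1, e2] at h1
      rw [h1]
    intro i j h
    rcases lt_trichotomy i j with hlt | heq | hgt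
    · exact absurd h (main i j hlt)
    · exact heq
    · exact absurd h.symm (main j i hgt)
  obtain ⟨C, hC⟩ := oddTraj_sum_inv_le x hx hinj
  set K : ℝ := x * Real.exp ((1 / 3) * C) with hK
  have htend := Function.Injective.nat_tendsto_atTop hinj
  obtain ⟨N, hN⟩ := Filter.eventually_atTop.mp
    (htend.eventually_ge_atTop (⌈K⌉₊ + 1))
  obtain ⟨n, hnN, hn⟩ := hb N
  have hxn : K < (oddTraj x n : ℝ) := by
    have h1 := hN n hnN
    have h2 : K ≤ (⌈K⌉₊ : ℝ) := Nat.le_ceil K
    have h3 : ((⌈K⌉₊ + 1 : ℕ) : ℝ) ≤ (oddTraj x n : ℝ) := by exact_mod_cast h1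
    push_cast at h3
    linarith
  have hpb := prod_bound x hx a hax n
  have hle : (3 : ℝ) ^ n * x * Real.exp ((1 / 3) * ∑ i ∈ range n, 1 / (oddTraj x i : ℝ))
      ≤ 3 ^ n * K := by
    rw [hK, mul_assoc]
    apply mul_le_mul_of_nonneg_left _ (by positivity)
    apply mul_le_mul_of_nonneg_left _ (by positivity)
    apply Real.exp_le_exp.mpr
    have := hC n
    linarith
  have hlt : (3 : ℝ) ^ n < 2 ^ bSum a n := by
    have h1 : Real.logb 2 ((3 : ℝ) ^ n) < Real.logb 2 ((2 : ℝ) ^ bSum a n) := by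
      rw [Real.logb_pow, Real.logb_pow, Real.logb_self_eq_one (by norm_num), mul_one]
      exact hn
    exact (Real.logb_lt_logb_iff (by norm_num) (by positivity) (by positivity)).mp h1
  have hKpos : 0 < K := by
    rw [hK]
    have : (0 : ℝ) < x := by exact_mod_cast hx0
    positivity
  have h3 : (0 : ℝ) < 3 ^ n := by positivity
  have : (3 : ℝ) ^ n * K < 2 ^ bSum a n * oddTraj x n := by
    calc (3 : ℝ) ^ n * K < 2 ^ bSum a n * K := by
          apply mul_lt_mul_of_pos_right hlt hKpos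
      _ ≤ 2 ^ bSum a n * oddTraj x n := by
          apply mul_le_mul_of_nonneg_left hxn.le (by positivity)
  linarith

end Pool.Agent.Results.MP_eea90e_nt.OmegaDivergence
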